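import Pool.Agent.Helper346.CD.FinDefs
import Pool.Agent.Helper346.CD.Final

set_option autoImplicit false

namespace Pool.Agent.Results.MP_2e017d_ag.IrrationalCoprime

open Pool.Agent.Helper346.CD

/-- There is an irreducible complex affine hypersurface which is not rational and which has
unirational parametrizations of degrees `2` and `3`. -/
theorem result : ∃ (n : ℕ) (f : MvPolynomial (Fin (n + 1)) ℂ), Irreducible f ∧
    HasParam (HypRing n f) n 2 ∧ HasParam (HypRing n f) n 3 ∧ ¬ IsRat (HypRing n f) n :=
  final_result

end Pool.Agent.Results.MP_2e017d_ag.IrrationalCoprime
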